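import Mathlib
import Pool.Agent.V1155.Guess

/-!
A function computed by a weighted automaton over a semiring that is co-guessable but not strongly
co-guessable.
-/

namespace Pool.Agent.Results.MP_2c9be0_lc.CoGuessableNotStrongly

open Pool.Agent.V1155.Guess

/-- There are a semiring, a finite alphabet and a function computed by a finite weighted automaton
over the semiring which is co-guessable and not strongly co-guessable. -/
theorem result : ∃ (S : Type) (_ : Semiring S) (A : Type) (_ : Finite A) (f : List A → S),
    Automatic f ∧ CoGuessable f ∧ ¬ StronglyCoGuessable f := by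
  refine ⟨(SetSemiring Mo)ᵐᵒᵖ, inferInstance, Unit, inferInstance,
    fun w => MulOpposite.op (sg (.pt w.length)), ?_⟩
  refine core_right (MulOpposite.op (sg mA)) (fun n => MulOpposite.op (sg (.pt n)))
    (fun N => MulOpposite.op (sg (.fn (nuF N) (Or.inr (Or.inr (nuF_ok N)))))) ?_ ?_ ?_ ?_ ?_
  · intro l h n
    apply MulOpposite.unop_injective
    exact fact0 l.unop (congrArg MulOpposite.unop h) n
  · intro l h n
    apply MulOpposite.unop_injective
    exact fact1 l.unop (congrArg MulOpposite.unop h) n
  · intro n
    apply MulOpposite.unop_injective
    exact factA n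
  · intro N n h
    apply MulOpposite.unop_injective
    rw [MulOpposite.unop_mul]
    simp only [MulOpposite.unop_op, factN]
    rw [nuF, if_pos h]
  · intro N h
    have h' := congrArg MulOpposite.unop h
    rw [MulOpposite.unop_mul] at h'
    simp only [MulOpposite.unop_op, factN] at h'
    rw [nuF, if_neg (lt_irrefl N)] at h'
    have := sg_inj h'
    injection this with h2
    omega

end Pool.Agent.Results.MP_2c9be0_lc.CoGuessableNotStrongly
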