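import Mathlib
import Pool.Agent.V1155.Guess

/-!
A function computed by a weighted automaton over a semiring that is guessable but not strongly
guessable.
-/

namespace Pool.Agent.Results.MP_2c9be0_lc.GuessableNotStrongly

open Pool.Agent.V1155.Guess

/-- There are a semiring, a finite alphabet and a function computed by a finite weighted automaton
over the semiring which is guessable and not strongly guessable. -/
theorem result : ∃ (S : Type) (_ : Semiring S) (A : Type) (_ : Finite A) (f : List A → S),
    Automatic f ∧ Guessable f ∧ ¬ StronglyGuessable f := by
  refine ⟨SetSemiring Mo, inferInstance, Unit, inferInstance, fun w => sg (.pt w.length), ?_⟩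
  refine core_left (sg mA) (fun n => sg (.pt n))
    (fun N => sg (.fn (nuF N) (Or.inr (Or.inr (nuF_ok N))))) fact0 fact1 factA ?_ ?_
  · intro N n h
    simp only [factN]
    rw [nuF, if_pos h]
  · intro N h
    simp only [factN] at h
    rw [nuF, if_neg (lt_irrefl N)] at h
    have := sg_inj h
    injection this with h2
    omega

end Pool.Agent.Results.MP_2c9be0_lc.GuessableNotStrongly
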